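import Mathlib

set_option autoImplicit false

open MeasureTheory ProbabilityTheory Filter Topology
open scoped ENNReal

namespace Pool.Agent.R319.ST

/-- the law of `V ^ a`, `V` uniform on `(0, 1]` -/
noncomputable def t3_law (a : ℝ) : Measure ℝ :=
  (volume.restrict (Set.Ioc (0 : ℝ) 1)).map fun v => v ^ a

lemma t3_meas (a : ℝ) : Measurable fun v : ℝ => v ^ a := measurable_id.pow_const a

lemma t3_prob (a : ℝ) : IsProbabilityMeasure (t3_law a) := by
  have : IsProbabilityMeasure (volume.restrict (Set.Ioc (0 : ℝ) 1)) := ⟨by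
    rw [Measure.restrict_apply_univ, Real.volume_Ioc]
    simp⟩
  exact Measure.isProbabilityMeasure_map (t3_meas a).aemeasurable

lemma t3_supp {a : ℝ} (ha : 0 < a) : t3_law a (Set.Icc 0 1)ᶜ = 0 := by
  unfold t3_law
  rw [Measure.map_apply (t3_meas a) measurableSet_Icc.compl,
    Measure.restrict_apply ((t3_meas a) measurableSet_Icc.compl)]
  have h : (fun v : ℝ => v ^ a) ⁻¹' (Set.Icc 0 1)ᶜ ∩ Set.Ioc 0 1 = ∅ := by
    refine Set.eq_empty_iff_forall_notMem.2 fun v hv => hv.1 ?_
    exact ⟨Real.rpow_nonneg hv.2.1.le a, Real.rpow_le_one hv.2.1.le hv.2.2 ha.le⟩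
  rw [h, measure_empty]

lemma t3_Iic {a : ℝ} (t : ℝ) : t3_law a (Set.Iic t) =
    volume {v : ℝ | v ^ a ≤ t ∧ v ∈ Set.Ioc (0 : ℝ) 1} := by
  unfold t3_law
  rw [Measure.map_apply (t3_meas a) measurableSet_Iic,
    Measure.restrict_apply ((t3_meas a) measurableSet_Iic)]
  rfl

lemma t3_law_le {a : ℝ} (ha : 0 < a) {t : ℝ} (_ht : 0 ≤ t) :
    t3_law a (Set.Iic t) ≤ ENNReal.ofReal (t ^ (1 / a)) := by
  rw [t3_Iic]
  calc volume {v : ℝ | v ^ a ≤ t ∧ v ∈ Set.Ioc (0 : ℝ) 1} ≤
        volume (Set.Ioc (0 : ℝ) (t ^ (1 / a))) := by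
        refine measure_mono fun v hv => ⟨hv.2.1, ?_⟩
        have h1 : v = (v ^ a) ^ (1 / a) := by
          rw [← Real.rpow_mul hv.2.1.le, mul_one_div_cancel ha.ne', Real.rpow_one]
        rw [h1]
        exact Real.rpow_le_rpow (Real.rpow_nonneg hv.2.1.le a) hv.1 (by positivity)
    _ = ENNReal.ofReal (t ^ (1 / a)) := by rw [Real.volume_Ioc, sub_zero]

lemma t3_le_law {a : ℝ} (ha : 0 < a) {t : ℝ} (ht : 0 ≤ t) :
    ENNReal.ofReal (min 1 (t ^ (1 / a))) ≤ t3_law a (Set.Iic t) := by
  rw [t3_Iic]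
  calc ENNReal.ofReal (min 1 (t ^ (1 / a))) =
        volume (Set.Ioc (0 : ℝ) (min 1 (t ^ (1 / a)))) := by rw [Real.volume_Ioc, sub_zero]
    _ ≤ _ := by
        refine measure_mono fun v hv => ⟨?_, hv.1, hv.2.trans (min_le_left _ _)⟩
        have h1 : t = (t ^ (1 / a)) ^ a := by
          rw [← Real.rpow_mul ht, one_div_mul_cancel ha.ne', Real.rpow_one]
        change v ^ a ≤ t
        rw [h1]
        exact Real.rpow_le_rpow hv.1.le (hv.2.trans (min_le_right _ _)) ha.le

theorem exTau3 (c : ℝ) (hc0 : 0 ≤ c) (hc : c < 1 / 3) (α : EReal) (hα : α ≤ ((-c : ℝ) : EReal)) :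
    ∃ τ : Measure ℝ, IsProbabilityMeasure τ ∧ τ (Set.Icc 0 1)ᶜ = 0 ∧
    (∀ b : ℝ, (b : EReal) < α → ∃ η C : ℝ, 0 < η ∧ ∀ k : ℕ, 1 ≤ k →
      τ (Set.Iic (2 * (k : ℝ) ^ b)) ≤ ENNReal.ofReal (C * (k : ℝ) ^ (-(1 - 3 * c) - η))) ∧
    (∀ b : ℝ, α < (b : EReal) → ∃ η : ℝ, 0 < η ∧ ∀ k : ℕ, 1 ≤ k →
      ENNReal.ofReal ((k : ℝ) ^ (-(1 - 3 * c) + η)) ≤ τ (Set.Iic ((k : ℝ) ^ b))) := by
  have h0 : ENNReal.ofReal (1 : ℝ) = 1 := ENNReal.ofReal_one
  have hκ : 0 < 1 - 3 * c := by linarith
  induction α using EReal.rec with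
  | bot =>
    refine ⟨Measure.dirac 0, inferInstance, ?_, ?_, ?_⟩
    · rw [Measure.dirac_apply' _ measurableSet_Icc.compl]
      simp
    · intro b hb
      exact absurd hb not_lt_bot
    · intro b _
      refine ⟨1 - 3 * c, hκ, fun k _ => ?_⟩
      rw [Measure.dirac_apply' _ measurableSet_Iic, Set.indicator_of_mem, neg_add_cancel,
        Real.rpow_zero, Pi.one_apply, h0]
      exact Real.rpow_nonneg (Nat.cast_nonneg k) b
  | top => exact absurd hα (by simp)
  | coe x =>
    have hx' : x ≤ -c := by exact_mod_cast hα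
    have hx : x ≤ 0 := by linarith
    rcases lt_or_eq_of_le hx with hx | hx
    · obtain ⟨a, ha⟩ : ∃ a : ℝ, a = -x := ⟨_, rfl⟩
      have ha0 : 0 < a := by rw [ha]; linarith
      obtain ⟨a', ha'⟩ : ∃ a' : ℝ, a' = a / (1 - 3 * c) := ⟨_, rfl⟩
      have ha'0 : 0 < a' := by rw [ha']; positivity
      have hinv : 1 / a' = (1 - 3 * c) / a := by rw [ha', one_div_div]
      refine ⟨t3_law a', t3_prob a', t3_supp ha'0, ?_, ?_⟩
      · intro b hb
        have hb' : b < x := by exact_mod_cast hb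
        have h1 : 1 < -b / a := by
          rw [lt_div_iff₀ ha0, ha]; linarith
        refine ⟨(1 - 3 * c) * (-b / a - 1), 2 ^ (1 / a'), mul_pos hκ (by linarith), fun k hk => ?_⟩
        have hk0 : (0 : ℝ) ≤ (k : ℝ) ^ b := Real.rpow_nonneg (Nat.cast_nonneg k) b
        refine (t3_law_le ha'0 (mul_nonneg zero_le_two hk0)).trans (le_of_eq ?_)
        rw [Real.mul_rpow zero_le_two hk0, ← Real.rpow_mul (Nat.cast_nonneg k)]
        have e : b * (1 / a') = -(1 - 3 * c) - (1 - 3 * c) * (-b / a - 1) := by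
          rw [hinv]
          field_simp
          ring
        rw [e]
      · intro b hb
        have hb' : x < b := by exact_mod_cast hb
        have hba : 0 < (1 - 3 * c) * (1 + b / a) := by
          have : -1 < b / a := by
            rw [lt_div_iff₀ ha0, ha]; linarith
          exact mul_pos hκ (by linarith)
        refine ⟨min (1 - 3 * c) ((1 - 3 * c) * (1 + b / a)), lt_min hκ hba, fun k hk => ?_⟩
        have hk1 : (1 : ℝ) ≤ k := by exact_mod_cast hk
        refine le_trans ?_ (t3_le_law ha'0 (Real.rpow_nonneg (Nat.cast_nonneg k) b))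
        refine ENNReal.ofReal_le_ofReal (le_min ?_ ?_)
        · refine Real.rpow_le_one_of_one_le_of_nonpos hk1 ?_
          have := min_le_left (1 - 3 * c) ((1 - 3 * c) * (1 + b / a))
          linarith
        · rw [← Real.rpow_mul (Nat.cast_nonneg k)]
          refine Real.rpow_le_rpow_of_exponent_le hk1 ?_
          have h2 := min_le_right (1 - 3 * c) ((1 - 3 * c) * (1 + b / a))
          have e : b * (1 / a') = -(1 - 3 * c) + (1 - 3 * c) * (1 + b / a) := by
            rw [hinv]
            field_simp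
            ring
          rw [e]
          linarith
    · have hc00 : c = 0 := by linarith
      subst hx
      subst hc00
      refine ⟨Measure.dirac 1, inferInstance, ?_, ?_, ?_⟩
      · rw [Measure.dirac_apply' _ measurableSet_Icc.compl]
        simp
      · intro b hb
        have hb' : b < 0 := by exact_mod_cast hb
        have h1 : Tendsto (fun k : ℕ => 2 * (k : ℝ) ^ b) atTop (𝓝 (2 * 0)) := by
          have h2 : Tendsto (fun y : ℝ => y ^ (-(-b))) atTop (𝓝 0) :=
            tendsto_rpow_neg_atTop (by linarith)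
          rw [neg_neg] at h2
          exact (h2.comp tendsto_natCast_atTop_atTop).const_mul 2
        rw [mul_zero] at h1
        obtain ⟨K, hK⟩ := eventually_atTop.1 (h1.eventually (gt_mem_nhds one_pos))
        refine ⟨1, (K : ℝ) ^ 2, one_pos, fun k hk => ?_⟩
        have hk1 : (1 : ℝ) ≤ k := by exact_mod_cast hk
        by_cases hkK : K ≤ k
        · rw [Measure.dirac_apply' _ measurableSet_Iic, Set.indicator_of_notMem]
          · exact zero_le
          · rw [Set.mem_Iic, not_le]
            exact hK k hkK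
        · have hkK' : (k : ℝ) ≤ K := by exact_mod_cast (not_le.1 hkK).le
          refine (prob_le_one).trans ?_
          rw [← h0]
          refine ENNReal.ofReal_le_ofReal ?_
          have e : (-(1 - 3 * (0 : ℝ)) - 1) = -(2 : ℝ) := by norm_num
          rw [e, Real.rpow_neg (by linarith), Real.rpow_two, ← div_eq_mul_inv,
            one_le_div (by positivity)]
          exact pow_le_pow_left₀ (by linarith) hkK' 2
      · intro b hb
        have hb' : 0 < b := by exact_mod_cast hb
        refine ⟨1, one_pos, fun k hk => ?_⟩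
        have hk1 : (1 : ℝ) ≤ k := by exact_mod_cast hk
        have e : (-(1 - 3 * (0 : ℝ)) + 1) = 0 := by norm_num
        rw [Measure.dirac_apply' _ measurableSet_Iic, Set.indicator_of_mem, e,
          Real.rpow_zero, Pi.one_apply, h0]
        exact Real.one_le_rpow hk1 hb'.le

end Pool.Agent.R319.ST
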