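import Pool.Agent.R319.SK.K6
import Pool.Agent.R319.ST.T5
import Pool.Agent.R319.SG.CO
import Pool.Agent.R319.SG.PE
import Pool.Agent.R319.SG.PX

open MeasureTheory ProbabilityTheory Filter Topology
open scoped ENNReal

namespace Pool.Agent.R319.ST

open Pool.Agent.R319.UM (box ez mon V2 cue)
open Pool.Agent.R319.SG
open Pool.Agent.R319.SK (WK cont bdd one_mem mix mix_fin mix_integral mix_prob mix_moments MomN W_int)

noncomputable section

variable {N K : ℕ}

lemma int_mu_real (w : (Fin N → ℝ) → ℝ) :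
    ∫ θ, w θ ∂(muN N) = (nc N)⁻¹ * ∫ θ in box N, w θ * V2 (ez θ) := by
  unfold muN
  rw [integral_withDensity_eq_integral_toReal_smul dens_meas (by simp), ← integral_const_mul]
  refine integral_congr_ae (Eventually.of_forall fun θ => ?_)
  simp only
  rw [ENNReal.toReal_ofReal (div_nonneg (V2_nonneg _) nc_pos.le), smul_eq_mul]
  ring

/-- the functional -/
def ell (ε : ℝ) (ρ : Measure (Fin N → ℝ)) [IsFiniteMeasure ρ] [IsFiniteMeasure (muN N)] :
    WK N K →ₗ[ℝ] ℝ where
  toFun w := ∫ θ, (w : (Fin N → ℝ) → ℝ) θ ∂(muN N) - ε * ∫ θ, (w : (Fin N → ℝ) → ℝ) θ ∂ρ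
  map_add' v w := by
    simp only [Submodule.coe_add, Pi.add_apply]
    rw [integral_add (W_int v.2 _) (W_int w.2 _), integral_add (W_int v.2 _) (W_int w.2 _)]
    ring
  map_smul' c w := by
    simp only [Submodule.coe_smul, Pi.smul_apply, smul_eq_mul, RingHom.id_apply]
    rw [integral_const_mul, integral_const_mul]
    ring

lemma KK2_compact : IsCompact (KK2 N K) := by
  have h1 : IsCompact (Set.univ.pi fun _ : Fin N => Set.Icc (0 : ℝ) (2 * Real.pi)) :=
    isCompact_univ_pi fun _ => isCompact_Icc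
  refine h1.of_isClosed_subset ?_ ?_
  · unfold KK2
    rw [Set.ofPred_and]
    apply IsClosed.inter
    · simp only [Set.ofPred_forall]
      exact isClosed_iInter fun j => isClosed_Icc.preimage (continuous_apply j)
    · simp only [Set.ofPred_forall]
      refine isClosed_iInter fun i => isClosed_iInter fun j => isClosed_iInter fun _ => ?_
      exact isClosed_le continuous_const (dist_cont i j)
  · intro θ hθ j _
    exact hθ.1 j

lemma AA_posK (hN : 0 < K) : 0 < AA K := by
  unfold AA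
  have : (0 : ℝ) < K := by exact_mod_cast hN
  positivity

theorem strong (hN : 2 ≤ N) (hNK : N ≤ K) (τ : Measure ℝ) [IsProbabilityMeasure τ]
    (hτ : τ (Set.Icc 0 1)ᶜ = 0) :
    ∃ ν : Measure (Fin N → ℂ), IsProbabilityMeasure ν ∧ (∀ᵐ z ∂ν, ∀ i, ‖z i‖ = 1) ∧
      MomN N K ν ∧
      (∀ t : ℝ, 0 ≤ t → t < dl2 N K →
        ν {z | gap z ≤ ENNReal.ofReal t} ≤
          ENNReal.ofReal (AA N / (2 * BB N K)) * τ (Set.Iic (2 * t))) ∧
      (∀ t : ℝ, ENNReal.ofReal (1 / (2 * BB N K * AA N)) * τ (Set.Iic t) ≤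
        ν {z | gap z ≤ ENNReal.ofReal t}) := by
  obtain ⟨M, rfl⟩ : ∃ M, N = M + 2 := ⟨N - 2, by omega⟩
  have hprob := muN_prob (cue_norm (M + 2))
  obtain ⟨ρ, hρ, hρ1, hρ2, hρ3⟩ := exRhoK hNK τ hτ
  have hA := AA_posK (K := M + 2) (by omega)
  have hB : 0 < BB (M + 2) K := by
    unfold BB
    positivity
  set A := AA (M + 2) with hAdef
  set B := BB (M + 2) K with hBdef
  set ε : ℝ := 1 / (2 * B) with hε
  have hε0 : 0 < ε := by positivity
  obtain ⟨κ, hκ, hκ1, hκ2⟩ := posExt (KK2 (M + 2) K) KK2_compact (WK (M + 2) K) (fun w hw => cont hw)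
    one_mem (ell ε ρ) (by
      intro w hw
      have h1 := posK hN hNK w.2 hw
      have h2 := hρ1 w w.2
      simp only [ell, LinearMap.coe_mk, AddHom.coe_mk]
      rw [int_mu_real]
      set I : ℝ := ∫ θ in box (M + 2), |(w : (Fin (M + 2) → ℝ) → ℝ) θ| * V2 (ez θ) with hI
      set J : ℝ := ∫ θ in box (M + 2), (w : (Fin (M + 2) → ℝ) → ℝ) θ * V2 (ez θ) with hJ
      have h3 : (nc (M + 2))⁻¹ * (1 / 2 * I) ≤ (nc (M + 2))⁻¹ * J :=
        mul_le_mul_of_nonneg_left h1 (inv_nonneg.2 nc_pos.le)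
      have h4 : ε * ∫ θ, (w : (Fin (M + 2) → ℝ) → ℝ) θ ∂ρ ≤ ε * (B * ((nc (M + 2))⁻¹ * I)) :=
        mul_le_mul_of_nonneg_left h2 hε0.le
      have h5 : ε * (B * ((nc (M + 2))⁻¹ * I)) = (nc (M + 2))⁻¹ * (1 / 2 * I) := by
        rw [hε]
        field_simp
      linarith)
  have hmain : ∀ w ∈ WK (M + 2) K, ∫ x, w x ∂(mix ε ρ κ) = ∫ x, w x ∂(muN (M + 2)) := by
    intro w hw
    rw [mix_integral hε0 ρ κ hw, hκ2 ⟨w, hw⟩]
    simp only [ell, LinearMap.coe_mk, AddHom.coe_mk]
    ring
  have hmp := mix_prob hmain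
  have hset : MeasurableSet {θ : Fin (M + 2) → ℝ | ∀ i, ‖ez θ i‖ = 1} := by
    rw [Set.ofPred_forall]
    exact MeasurableSet.iInter fun i => measurableSet_eq_fun (ezi_cont i).norm.measurable
      measurable_const
  have hg : ∀ t : ℝ, ((mix ε ρ κ).map ez) {z | gap z ≤ ENNReal.ofReal t} =
      ENNReal.ofReal ε * ρ {θ | gap (ez θ) ≤ ENNReal.ofReal t} +
        κ {θ | gap (ez θ) ≤ ENNReal.ofReal t} := by
    intro t
    rw [Measure.map_apply ez_cont.measurable (measurableSet_le gap_meas measurable_const)]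
    unfold mix
    rw [Measure.add_apply, Measure.smul_apply, smul_eq_mul]
    rfl
  refine ⟨(mix ε ρ κ).map ez, Measure.isProbabilityMeasure_map ez_cont.aemeasurable, ?_, ?_, ?_, ?_⟩
  · rw [ae_map_iff ez_cont.aemeasurable]
    · refine Eventually.of_forall fun θ i => ?_
      unfold ez
      rw [mul_comm, Complex.norm_exp_ofReal_mul_I]
    · rw [Set.ofPred_forall]
      exact MeasurableSet.iInter fun i => measurableSet_eq_fun
        ((continuous_apply i).norm.measurable) measurable_const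
  · intro F G hF hG
    exact mix_moments hmain F G hF hG
  · intro t ht htd
    rw [hg t]
    have hk0 : κ {θ | gap (ez θ) ≤ ENNReal.ofReal t} = 0 := by
      refine measure_mono_null ?_ hκ1
      intro θ hθ hcon
      have hθ' : gap (ez θ) ≤ ENNReal.ofReal t := hθ
      have h6 : ENNReal.ofReal (dl2 (M + 2) K) ≤ gap (ez θ) := by
        unfold gap
        refine le_iInf fun i => le_iInf fun j => le_iInf fun hij => ?_
        exact ENNReal.ofReal_le_ofReal (hcon.2 i j hij)
      have h7 : ENNReal.ofReal t < ENNReal.ofReal (dl2 (M + 2) K) :=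
        (ENNReal.ofReal_lt_ofReal_iff (lt_of_le_of_lt ht htd)).2 htd
      exact absurd (h6.trans hθ') (not_le.2 h7)
    rw [hk0, add_zero]
    calc ENNReal.ofReal ε * ρ {θ | gap (ez θ) ≤ ENNReal.ofReal t}
        ≤ ENNReal.ofReal ε * (ENNReal.ofReal A * τ (Set.Iic (2 * t))) := by
          gcongr
          exact hρ2 t ht htd
      _ = ENNReal.ofReal (A / (2 * B)) * τ (Set.Iic (2 * t)) := by
          rw [← mul_assoc, ← ENNReal.ofReal_mul hε0.le]
          congr 2
          rw [hε]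
          field_simp
  · intro t
    rw [hg t]
    refine le_trans ?_ le_self_add
    calc ENNReal.ofReal (1 / (2 * B * A)) * τ (Set.Iic t)
        = ENNReal.ofReal ε * (ENNReal.ofReal A⁻¹ * τ (Set.Iic t)) := by
          rw [← mul_assoc, ← ENNReal.ofReal_mul hε0.le]
          congr 2
          rw [hε]
          field_simp
      _ ≤ _ := by
          gcongr
          exact hρ3 t

end

end Pool.Agent.R319.ST
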