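import Pool.Agent.R319.SG.FB
import Pool.Agent.R319.ST.T4

/-!
The almost sure exponent, for growing block sizes and degrees.
-/

open MeasureTheory ProbabilityTheory Filter Topology
open scoped ENNReal

namespace Pool.Agent.R319.ST

open Pool.Agent.R319.SG

lemma rp_le {K : ℕ → ℕ} (hK : ∀ k, 1 ≤ K k) {c e : ℝ}
    (hlog : Tendsto (fun k : ℕ => Real.log (K k) / Real.log k) atTop (𝓝 c))
    (he : c < e) : ∀ᶠ k : ℕ in atTop, (K k : ℝ) ≤ (k : ℝ) ^ e := by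
  filter_upwards [hlog.eventually_lt_const he, eventually_ge_atTop 2] with k hk hk2
  have hk1 : (1 : ℝ) < k := by exact_mod_cast hk2
  have hk0 : (0 : ℝ) < k := by linarith
  have hl : 0 < Real.log k := Real.log_pos hk1
  rw [div_lt_iff₀ hl] at hk
  have hN0 : (0 : ℝ) < K k := by
    have := hK k
    exact_mod_cast (by omega : 0 < K k)
  rw [← Real.log_le_log_iff hN0 (Real.rpow_pos_of_pos hk0 _), Real.log_rpow hk0]
  exact hk.le

lemma rp_ge {K : ℕ → ℕ} (hK : ∀ k, 1 ≤ K k) {c e : ℝ}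
    (hlog : Tendsto (fun k : ℕ => Real.log (K k) / Real.log k) atTop (𝓝 c))
    (he : e < c) : ∀ᶠ k : ℕ in atTop, (k : ℝ) ^ e ≤ (K k : ℝ) := by
  filter_upwards [hlog.eventually_const_lt he, eventually_ge_atTop 2] with k hk hk2
  have hk1 : (1 : ℝ) < k := by exact_mod_cast hk2
  have hk0 : (0 : ℝ) < k := by linarith
  have hl : 0 < Real.log k := Real.log_pos hk1
  rw [lt_div_iff₀ hl] at hk
  have hN0 : (0 : ℝ) < K k := by
    have := hK k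
    exact_mod_cast (by omega : 0 < K k)
  rw [← Real.log_le_log_iff (Real.rpow_pos_of_pos hk0 _) hN0, Real.log_rpow hk0]
  exact hk.le

/-- `k ^ b` is eventually less than the separation -/
lemma pow_lt_dl2 {N K : ℕ → ℕ} (hN : ∀ k, 2 ≤ N k) (hNK : ∀ k, N k ≤ K k) {c b : ℝ}
    (hlogN : Tendsto (fun k : ℕ => Real.log (N k) / Real.log k) atTop (𝓝 0))
    (hlogK : Tendsto (fun k : ℕ => Real.log (K k) / Real.log k) atTop (𝓝 c))
    (hb : b < -c) : ∀ᶠ k : ℕ in atTop, (k : ℝ) ^ b < dl2 (N k) (K k) := by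
  set η : ℝ := (-c - b) / 4 with hη
  have hη0 : 0 < η := by rw [hη]; linarith
  have ht : Tendsto (fun k : ℕ => (k : ℝ) ^ (-η)) atTop (𝓝 0) :=
    (tendsto_rpow_neg_atTop hη0).comp tendsto_natCast_atTop_atTop
  filter_upwards [rp_le (fun k => le_trans (by norm_num) (hN k)) hlogN hη0,
    rp_le (fun k => le_trans (le_trans (by norm_num) (hN k)) (hNK k)) hlogK
      (by linarith : c < c + η),
    ht.eventually_lt_const (by norm_num : (0 : ℝ) < 1 / 40), eventually_ge_atTop 1] with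
    k hk hkK hk2 hk1
  have hk0 : (0 : ℝ) < k := by exact_mod_cast hk1
  have hN2 : (2 : ℝ) ≤ N k := by exact_mod_cast hN k
  have hK2 : (2 : ℝ) ≤ K k := by exact_mod_cast (hN k).trans (hNK k)
  unfold dl2
  rw [lt_div_iff₀ (by positivity)]
  have h1 : 8 * (4 * (K k : ℝ) + 1) * (N k : ℝ) ^ 2 ≤
      40 * ((k : ℝ) ^ (c + η) * ((k : ℝ) ^ η) ^ 2) := by
    calc 8 * (4 * (K k : ℝ) + 1) * (N k : ℝ) ^ 2 ≤ 8 * (5 * K k) * (N k : ℝ) ^ 2 := by
          have : 4 * (K k : ℝ) + 1 ≤ 5 * K k := by linarith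
          gcongr
      _ = 40 * ((K k : ℝ) * (N k : ℝ) ^ 2) := by ring
      _ ≤ _ := by gcongr
  have h2 : (k : ℝ) ^ b * ((k : ℝ) ^ (c + η) * ((k : ℝ) ^ η) ^ 2) = (k : ℝ) ^ (-η) := by
    rw [← Real.rpow_natCast ((k : ℝ) ^ η) 2, ← Real.rpow_mul hk0.le, ← Real.rpow_add hk0,
      ← Real.rpow_add hk0]
    congr 1
    rw [hη]
    push_cast
    ring
  calc (k : ℝ) ^ b * (8 * (4 * (K k : ℝ) + 1) * (N k : ℝ) ^ 2)
      ≤ (k : ℝ) ^ b * (40 * ((k : ℝ) ^ (c + η) * ((k : ℝ) ^ η) ^ 2)) :=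
        mul_le_mul_of_nonneg_left h1 (Real.rpow_nonneg hk0.le b)
    _ = 40 * ((k : ℝ) ^ b * ((k : ℝ) ^ (c + η) * ((k : ℝ) ^ η) ^ 2)) := by ring
    _ = 40 * (k : ℝ) ^ (-η) := by rw [h2]
    _ < 1 := by linarith

/-- the weight from above -/
lemma wt_le {N K : ℕ → ℕ} (hN : ∀ k, 2 ≤ N k) (hNK : ∀ k, N k ≤ K k) {c η : ℝ}
    (hlogN : Tendsto (fun k : ℕ => Real.log (N k) / Real.log k) atTop (𝓝 0))
    (hlogK : Tendsto (fun k : ℕ => Real.log (K k) / Real.log k) atTop (𝓝 c))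
    (hη : 0 < η) : ∀ᶠ k : ℕ in atTop,
      AA (N k) / (2 * BB (N k) (K k)) ≤ (k : ℝ) ^ (-3 * c + 6 * η) := by
  filter_upwards [rp_le (fun k => le_trans (by norm_num) (hN k)) hlogN hη,
    rp_ge (fun k => le_trans (le_trans (by norm_num) (hN k)) (hNK k)) hlogK
      (by linarith : c - η < c), eventually_ge_atTop 1] with k hk hkK hk1
  have hk0 : (0 : ℝ) < k := by exact_mod_cast hk1
  have hN2 : (2 : ℝ) ≤ N k := by exact_mod_cast hN k
  have hK2 : (2 : ℝ) ≤ K k := by exact_mod_cast (hN k).trans (hNK k)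
  unfold AA BB
  have hp : 0 < (k : ℝ) ^ (c - η) := Real.rpow_pos_of_pos hk0 _
  rw [div_le_iff₀ (by positivity)]
  have h1 : (4 * (N k : ℝ) + 1) ^ 3 ≤ 125 * ((k : ℝ) ^ η) ^ 3 := by
    calc (4 * (N k : ℝ) + 1) ^ 3 ≤ (5 * (k : ℝ) ^ η) ^ 3 := by
          apply pow_le_pow_left₀ (by positivity)
          linarith
      _ = _ := by ring
  have h2 : 64 * ((k : ℝ) ^ (c - η)) ^ 3 ≤ (4 * (K k : ℝ) + 1) ^ 3 := by
    calc 64 * ((k : ℝ) ^ (c - η)) ^ 3 = (4 * (k : ℝ) ^ (c - η)) ^ 3 := by ring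
      _ ≤ _ := by
          apply pow_le_pow_left₀ (by positivity)
          linarith
  have h3 : (k : ℝ) ^ (-3 * c + 6 * η) * ((k : ℝ) ^ (c - η)) ^ 3 = ((k : ℝ) ^ η) ^ 3 := by
    rw [← Real.rpow_natCast ((k : ℝ) ^ (c - η)) 3, ← Real.rpow_natCast ((k : ℝ) ^ η) 3,
      ← Real.rpow_mul hk0.le, ← Real.rpow_mul hk0.le, ← Real.rpow_add hk0]
    congr 1
    push_cast
    ring
  have hq : 0 ≤ (k : ℝ) ^ (-3 * c + 6 * η) := Real.rpow_nonneg hk0.le _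
  have hr : 0 ≤ (k : ℝ) ^ η := Real.rpow_nonneg hk0.le _
  calc 64 * (4 * (N k : ℝ) + 1) ^ 3 * (N k : ℝ) ^ 2
      ≤ 64 * (125 * ((k : ℝ) ^ η) ^ 3) * (N k : ℝ) ^ 2 := by gcongr
    _ = 64 * 125 * ((k : ℝ) ^ (-3 * c + 6 * η) * ((k : ℝ) ^ (c - η)) ^ 3) * (N k : ℝ) ^ 2 := by
        rw [h3]; ring
    _ ≤ (k : ℝ) ^ (-3 * c + 6 * η) * (2 * (64 * (64 * ((k : ℝ) ^ (c - η)) ^ 3) *
          (N k : ℝ) ^ 2)) := by
        have h4 : 0 ≤ (k : ℝ) ^ (-3 * c + 6 * η) * ((k : ℝ) ^ (c - η)) ^ 3 * (N k : ℝ) ^ 2 := by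
          positivity
        nlinarith
    _ ≤ (k : ℝ) ^ (-3 * c + 6 * η) * (2 * (64 * (4 * (K k : ℝ) + 1) ^ 3 * (N k : ℝ) ^ 2)) := by
        gcongr

/-- the weight from below -/
lemma wt_ge {N K : ℕ → ℕ} (hN : ∀ k, 2 ≤ N k) (hNK : ∀ k, N k ≤ K k) {c η : ℝ}
    (hlogN : Tendsto (fun k : ℕ => Real.log (N k) / Real.log k) atTop (𝓝 0))
    (hlogK : Tendsto (fun k : ℕ => Real.log (K k) / Real.log k) atTop (𝓝 c))
    (hη : 0 < η) : ∀ᶠ k : ℕ in atTop,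
      (k : ℝ) ^ (-3 * c - 10 * η) / 128000000 ≤ 1 / (2 * BB (N k) (K k) * AA (N k)) := by
  filter_upwards [rp_le (fun k => le_trans (by norm_num) (hN k)) hlogN hη,
    rp_le (fun k => le_trans (le_trans (by norm_num) (hN k)) (hNK k)) hlogK
      (by linarith : c < c + η), eventually_ge_atTop 1] with k hk hkK hk1
  have hk0 : (0 : ℝ) < k := by exact_mod_cast hk1
  have hN2 : (2 : ℝ) ≤ N k := by exact_mod_cast hN k
  have hK2 : (2 : ℝ) ≤ K k := by exact_mod_cast (hN k).trans (hNK k)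
  unfold AA BB
  rw [div_le_div_iff₀ (by norm_num) (by positivity), one_mul]
  have hr : 0 < (k : ℝ) ^ η := Real.rpow_pos_of_pos hk0 _
  have hs : 0 < (k : ℝ) ^ (c + η) := Real.rpow_pos_of_pos hk0 _
  have h1 : 2 * (64 * (4 * (K k : ℝ) + 1) ^ 3 * (N k : ℝ) ^ 2) *
      (64 * (4 * (N k : ℝ) + 1) ^ 3 * (N k : ℝ) ^ 2) ≤
      128000000 * (((k : ℝ) ^ (c + η)) ^ 3 * ((k : ℝ) ^ η) ^ 7) := by
    have e1 : 4 * (K k : ℝ) + 1 ≤ 5 * (k : ℝ) ^ (c + η) := by linarith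
    have e2 : 4 * (N k : ℝ) + 1 ≤ 5 * (k : ℝ) ^ η := by linarith
    calc 2 * (64 * (4 * (K k : ℝ) + 1) ^ 3 * (N k : ℝ) ^ 2) *
        (64 * (4 * (N k : ℝ) + 1) ^ 3 * (N k : ℝ) ^ 2) ≤
        2 * (64 * (5 * (k : ℝ) ^ (c + η)) ^ 3 * ((k : ℝ) ^ η) ^ 2) *
        (64 * (5 * (k : ℝ) ^ η) ^ 3 * ((k : ℝ) ^ η) ^ 2) := by gcongr
      _ = _ := by ring
  have h2 : (k : ℝ) ^ (-3 * c - 10 * η) * (((k : ℝ) ^ (c + η)) ^ 3 * ((k : ℝ) ^ η) ^ 7) = 1 := by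
    rw [← Real.rpow_natCast ((k : ℝ) ^ (c + η)) 3, ← Real.rpow_natCast ((k : ℝ) ^ η) 7,
      ← Real.rpow_mul hk0.le, ← Real.rpow_mul hk0.le, ← Real.rpow_add hk0, ← Real.rpow_add hk0]
    have : -3 * c - 10 * η + ((c + η) * ((3 : ℕ) : ℝ) + η * ((7 : ℕ) : ℝ)) = 0 := by
      push_cast
      ring
    rw [this, Real.rpow_zero]
  have hq : 0 ≤ (k : ℝ) ^ (-3 * c - 10 * η) := Real.rpow_nonneg hk0.le _
  calc (k : ℝ) ^ (-3 * c - 10 * η) * (2 * (64 * (4 * (K k : ℝ) + 1) ^ 3 * (N k : ℝ) ^ 2) *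
      (64 * (4 * (N k : ℝ) + 1) ^ 3 * (N k : ℝ) ^ 2))
      ≤ (k : ℝ) ^ (-3 * c - 10 * η) *
        (128000000 * (((k : ℝ) ^ (c + η)) ^ 3 * ((k : ℝ) ^ η) ^ 7)) :=
        mul_le_mul_of_nonneg_left h1 hq
    _ = 128000000 * ((k : ℝ) ^ (-3 * c - 10 * η) *
        (((k : ℝ) ^ (c + η)) ^ 3 * ((k : ℝ) ^ η) ^ 7)) := by ring
    _ = 128000000 := by rw [h2, mul_one]

theorem finalBC3 {N K : ℕ → ℕ} (hN : ∀ k, 2 ≤ N k) (hNK : ∀ k, N k ≤ K k) {c : ℝ}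
    (hlogN : Tendsto (fun k : ℕ => Real.log (N k) / Real.log k) atTop (𝓝 0))
    (hlogK : Tendsto (fun k : ℕ => Real.log (K k) / Real.log k) atTop (𝓝 c))
    (α : EReal) (hα : α ≤ ((-c : ℝ) : EReal)) (τ : Measure ℝ) [IsProbabilityMeasure τ]
    (h1 : ∀ b : ℝ, (b : EReal) < α → ∃ η C : ℝ, 0 < η ∧ ∀ k : ℕ, 1 ≤ k →
      τ (Set.Iic (2 * (k : ℝ) ^ b)) ≤ ENNReal.ofReal (C * (k : ℝ) ^ (-(1 - 3 * c) - η)))
    (h2 : ∀ b : ℝ, α < (b : EReal) → ∃ η : ℝ, 0 < η ∧ ∀ k : ℕ, 1 ≤ k →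
      ENNReal.ofReal ((k : ℝ) ^ (-(1 - 3 * c) + η)) ≤ τ (Set.Iic ((k : ℝ) ^ b)))
    {Ω : Type*} [MeasurableSpace Ω] (P : Measure Ω) [IsProbabilityMeasure P]
    (Y : ℕ → Ω → ℝ≥0∞) (hY : ∀ k, Measurable (Y k)) (hind : iIndepFun Y P)
    (h3 : ∀ (k : ℕ) (t : ℝ), 0 ≤ t → t < dl2 (N k) (K k) →
      P {ω | Y k ω ≤ ENNReal.ofReal t} ≤
        ENNReal.ofReal (AA (N k) / (2 * BB (N k) (K k))) * τ (Set.Iic (2 * t)))
    (h4 : ∀ (k : ℕ) (t : ℝ),
      ENNReal.ofReal (1 / (2 * BB (N k) (K k) * AA (N k))) * τ (Set.Iic t) ≤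
      P {ω | Y k ω ≤ ENNReal.ofReal t}) :
    ∀ᵐ ω ∂P, liminf (fun k : ℕ => ENNReal.log (Y k ω) / ((Real.log k : ℝ) : EReal)) atTop = α := by
  refine bc P Y hY hind α ?_ ?_
  · intro b hb
    have hbc : b < -c := by
      have h := lt_of_lt_of_le hb hα
      exact_mod_cast h
    obtain ⟨η, C, hη, h5⟩ := h1 b hb
    have hs : ∑' k : ℕ, ENNReal.ofReal (|C| * (k : ℝ) ^ (-1 - η / 2)) ≠ ∞ := by
      have hsum : Summable fun k : ℕ => |C| * (k : ℝ) ^ (-1 - η / 2) :=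
        (Real.summable_nat_rpow.2 (by linarith)).mul_left _
      rw [← ENNReal.ofReal_tsum_of_nonneg (fun k => by positivity) hsum]
      exact ENNReal.ofReal_ne_top
    refine FBAux.tsum_ne_top_of_eventually_le (fun k => measure_ne_top P _) ?_ hs
    filter_upwards [pow_lt_dl2 hN hNK hlogN hlogK hbc,
      wt_le hN hNK hlogN hlogK (η := η / 12) (by linarith), eventually_ge_atTop 1] with k hk hk2 hk1
    have hk0 : (0 : ℝ) < k := by exact_mod_cast hk1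
    refine (h3 k _ (Real.rpow_nonneg (Nat.cast_nonneg k) b) hk).trans ?_
    calc ENNReal.ofReal (AA (N k) / (2 * BB (N k) (K k))) * τ (Set.Iic (2 * (k : ℝ) ^ b))
        ≤ ENNReal.ofReal ((k : ℝ) ^ (-3 * c + 6 * (η / 12))) *
          ENNReal.ofReal (|C| * (k : ℝ) ^ (-(1 - 3 * c) - η)) := by
          refine mul_le_mul' (ENNReal.ofReal_le_ofReal hk2) ((h5 k hk1).trans ?_)
          apply ENNReal.ofReal_le_ofReal
          exact mul_le_mul_of_nonneg_right (le_abs_self C) (Real.rpow_nonneg hk0.le _)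
      _ = ENNReal.ofReal (|C| * (k : ℝ) ^ (-1 - η / 2)) := by
          rw [← ENNReal.ofReal_mul (Real.rpow_nonneg hk0.le _)]
          congr 1
          have : (k : ℝ) ^ (-1 - η / 2) = (k : ℝ) ^ (-3 * c + 6 * (η / 12)) *
              (k : ℝ) ^ (-(1 - 3 * c) - η) := by
            rw [← Real.rpow_add hk0]
            congr 1
            ring
          rw [this]
          ring
  · intro b hb
    obtain ⟨η, hη, hk⟩ := h2 b hb
    by_contra hne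
    have h5 : ∑' k : ℕ, ENNReal.ofReal ((1 / 128000000) / (k : ℝ)) ≠ ∞ := by
      refine FBAux.tsum_ne_top_of_eventually_le (fun k => ENNReal.ofReal_ne_top) ?_ hne
      filter_upwards [wt_ge hN hNK hlogN hlogK (η := η / 10) (by linarith),
        eventually_ge_atTop 1] with k h6 hk1
      have hk0 : (0 : ℝ) < k := by exact_mod_cast hk1
      refine le_trans ?_ (h4 k _)
      have e : (1 / 128000000) / (k : ℝ) = (k : ℝ) ^ (-3 * c - 10 * (η / 10)) / 128000000 *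
          (k : ℝ) ^ (-(1 - 3 * c) + η) := by
        have : (k : ℝ) ^ (-3 * c - 10 * (η / 10)) * (k : ℝ) ^ (-(1 - 3 * c) + η) = (k : ℝ)⁻¹ := by
          rw [← Real.rpow_add hk0, ← Real.rpow_neg_one]
          congr 1
          ring
        rw [div_mul_eq_mul_div, this]
        ring
      calc ENNReal.ofReal ((1 / 128000000) / (k : ℝ))
          = ENNReal.ofReal ((k : ℝ) ^ (-3 * c - 10 * (η / 10)) / 128000000) *
            ENNReal.ofReal ((k : ℝ) ^ (-(1 - 3 * c) + η)) := by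
            rw [e, ENNReal.ofReal_mul (by positivity)]
        _ ≤ _ := mul_le_mul' (ENNReal.ofReal_le_ofReal h6) (hk k hk1)
    have h7 := ENNReal.summable_toReal h5
    have h8 : Summable (fun k : ℕ => (1 / 128000000 : ℝ) * (1 / (k : ℝ))) := by
      refine h7.congr fun k => ?_
      rw [ENNReal.toReal_ofReal (by positivity)]
      ring
    have h9 : Summable (fun k : ℕ => 1 / (k : ℝ)) :=
      (summable_mul_left_iff (by norm_num : (1 / 128000000 : ℝ) ≠ 0)).1 h8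
    exact Real.not_summable_one_div_natCast h9

end Pool.Agent.R319.ST
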