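import Pool.Agent.R319.ST.T3
import Pool.Agent.R319.ST.T7
import Pool.Agent.R319.ST.T8

/-!
The exponent of the small gaps for independent blocks, with moments of degree up to `k ^ c`.
-/

open MeasureTheory ProbabilityTheory Filter Topology
open scoped ENNReal

namespace Pool.Agent.R319.ST

open Pool.Agent.R319.SG
open Pool.Agent.R319.SK (MomN)

noncomputable section

/-- the auxiliary degree -/
def KD (N D : ℕ → ℕ) (c : ℝ) (k : ℕ) : ℕ := max (max (N k) (D k)) ⌈(k : ℝ) ^ c⌉₊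

lemma KD_tendsto {N D : ℕ → ℕ} (hN : ∀ k, 2 ≤ N k) {c : ℝ} (hc0 : 0 ≤ c)
    (hlogN : Tendsto (fun k : ℕ => Real.log (N k) / Real.log k) atTop (𝓝 0))
    (hD : ∀ e : ℝ, c < e → ∀ᶠ k : ℕ in atTop, (D k : ℝ) ≤ (k : ℝ) ^ e) :
    Tendsto (fun k : ℕ => Real.log (KD N D c k) / Real.log k) atTop (𝓝 c) := by
  rw [tendsto_order]
  constructor
  · intro a ha
    filter_upwards [eventually_ge_atTop 2] with k hk2
    have hk1 : (1 : ℝ) < k := by exact_mod_cast hk2
    have hk0 : (0 : ℝ) < k := by linarith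
    have hl : 0 < Real.log k := Real.log_pos hk1
    refine lt_of_lt_of_le ha ?_
    rw [le_div_iff₀ hl, ← Real.log_rpow hk0]
    apply Real.log_le_log (Real.rpow_pos_of_pos hk0 _)
    refine (Nat.le_ceil _).trans ?_
    exact_mod_cast le_max_right _ _
  · intro e he
    set e' : ℝ := (c + e) / 2 with he'
    have h1 : c < e' := by rw [he']; linarith
    have h2 : e' < e := by rw [he']; linarith
    have ht : Tendsto (fun k : ℕ => (k : ℝ) ^ (e' - c)) atTop atTop :=
      (tendsto_rpow_atTop (by linarith : 0 < e' - c)).comp tendsto_natCast_atTop_atTop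
    filter_upwards [rp_le (fun k => le_trans (by norm_num) (hN k)) hlogN
      (lt_of_le_of_lt hc0 h1), hD e' h1, ht.eventually_ge_atTop 2, eventually_ge_atTop 2] with
      k hk3 hk4 hk5 hk2
    have hk1 : (1 : ℝ) < k := by exact_mod_cast hk2
    have hk0 : (0 : ℝ) < k := by linarith
    have hl : 0 < Real.log k := Real.log_pos hk1
    refine lt_of_le_of_lt ?_ h2
    have hKpos : 0 < (KD N D c k : ℝ) := by
      have h6 : 2 ≤ KD N D c k := (hN k).trans ((le_max_left _ _).trans (le_max_left _ _))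
      exact_mod_cast (by omega : 0 < KD N D c k)
    rw [div_le_iff₀ hl, ← Real.log_rpow hk0]
    apply Real.log_le_log hKpos
    have h7 : ((⌈(k : ℝ) ^ c⌉₊ : ℕ) : ℝ) ≤ (k : ℝ) ^ e' := by
      have h8 := (Nat.ceil_lt_add_one (Real.rpow_nonneg hk0.le c)).le
      have h9 : (1 : ℝ) ≤ (k : ℝ) ^ c := Real.one_le_rpow hk1.le hc0
      have h10 : (k : ℝ) ^ e' = (k : ℝ) ^ c * (k : ℝ) ^ (e' - c) := by
        rw [← Real.rpow_add hk0]
        congr 1
        ring
      rw [h10]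
      nlinarith
    unfold KD
    push_cast
    exact max_le (max_le hk3 hk4) h7

theorem main {N D : ℕ → ℕ} (hN : ∀ k, 2 ≤ N k)
    (hlogN : Tendsto (fun k : ℕ => Real.log (N k) / Real.log k) atTop (𝓝 0))
    {c : ℝ} (hc0 : 0 ≤ c) (hc : c < 1 / 3)
    (hD : ∀ e : ℝ, c < e → ∀ᶠ k : ℕ in atTop, (D k : ℝ) ≤ (k : ℝ) ^ e)
    (α : EReal) (hα : α ≤ ((-c : ℝ) : EReal)) :
    ∃ (ν : (k : ℕ) → Measure (Fin (N k) → ℂ)) (_ : ∀ k, IsProbabilityMeasure (ν k)),
      (∀ k, (∀ᵐ z ∂(ν k), ∀ i, ‖z i‖ = 1) ∧ MomN (N k) (D k) (ν k)) ∧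
      ∀ᵐ x ∂(Measure.infinitePi ν),
        liminf (fun k : ℕ => ENNReal.log (gap (x k)) / ((Real.log k : ℝ) : EReal)) atTop = α := by
  obtain ⟨τ, hτ, hτ0, hτ1, hτ2⟩ := exTau3 c hc0 hc α hα
  have hNK : ∀ k, N k ≤ KD N D c k := fun k => (le_max_left _ _).trans (le_max_left _ _)
  have hDK : ∀ k, D k ≤ KD N D c k := fun k => (le_max_right _ _).trans (le_max_left _ _)
  have h := fun k => strong (hN k) (hNK k) τ hτ0
  choose ν h0 h1 h2 h3 h4 using h
  refine ⟨ν, h0, fun k => ⟨h1 k, fun F G hF hG => h2 k F G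
    (fun j => (hF j).trans (hDK k)) (fun j => (hG j).trans (hDK k))⟩, ?_⟩
  have hgm : ∀ k, Measurable (gap (N := N k)) := fun k => gap_meas
  have hind : iIndepFun (fun k (x : (k : ℕ) → Fin (N k) → ℂ) => gap (x k)) (Measure.infinitePi ν) :=
    iIndepFun_infinitePi (P := ν) (X := fun k z => gap z) hgm
  have hY : ∀ k, Measurable fun x : (k : ℕ) → Fin (N k) → ℂ => gap (x k) :=
    fun k => (hgm k).comp (measurable_pi_apply k)
  have hm : ∀ (k : ℕ) (t : ℝ), (Measure.infinitePi ν)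
      {x : (k : ℕ) → Fin (N k) → ℂ | gap (x k) ≤ ENNReal.ofReal t} =
      ν k {z | gap z ≤ ENNReal.ofReal t} := by
    intro k t
    have hs : MeasurableSet {z : Fin (N k) → ℂ | gap z ≤ ENNReal.ofReal t} :=
      measurableSet_le (hgm k) measurable_const
    rw [← (measurePreserving_eval_infinitePi ν k).measure_preimage hs.nullMeasurableSet]
    rfl
  refine finalBC3 hN hNK hlogN (KD_tendsto hN hc0 hlogN hD) α hα τ hτ1 hτ2
    (Measure.infinitePi ν) (fun k x => gap (x k)) hY hind ?_ ?_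
  · intro k t ht htd
    rw [hm]
    exact h3 k t ht htd
  · intro k t
    rw [hm]
    exact h4 k t

end

end Pool.Agent.R319.ST
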